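import Pool.Agent.Work.MP_91aed7_am_helper54.Main

/-!
# Every automorphism is stably tame to all orders (MP_91aed7_ag)

For every field `k`, every automorphism `φ` of `k[x_1, ..., x_n]` and every `m`, for all large `l`
there is a tame automorphism of `k[x_1, ..., x_n, y_1, ..., y_l]` which is congruent modulo
`(y_1, ..., y_l) ^ m` to the extension of `φ` by the identity on the `y_j`.
-/

set_option autoImplicit false

namespace Pool.Agent.Results.MP_91aed7_ag.AllOrders

theorem result :
    ∀ (k : Type) [Field k] (n : ℕ)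
      (φ : MvPolynomial (Fin n) k ≃ₐ[k] MvPolynomial (Fin n) k) (m : ℕ),
      ∃ l₀ : ℕ, ∀ l : ℕ, l₀ ≤ l →
        ∃ τ : MvPolynomial (Fin (n + l)) k ≃ₐ[k] MvPolynomial (Fin (n + l)) k,
          τ ∈ Subgroup.closure
            ({σ : MvPolynomial (Fin (n + l)) k ≃ₐ[k] MvPolynomial (Fin (n + l)) k |
                ∀ i : Fin (n + l), (σ (MvPolynomial.X i)).totalDegree ≤ 1} ∪
             {σ : MvPolynomial (Fin (n + l)) k ≃ₐ[k] MvPolynomial (Fin (n + l)) k |
                ∃ i : Fin (n + l), ∃ f : MvPolynomial (Fin (n + l)) k,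
                  i ∉ f.vars ∧ σ (MvPolynomial.X i) = MvPolynomial.X i + f ∧
                  ∀ j : Fin (n + l), j ≠ i → σ (MvPolynomial.X j) = MvPolynomial.X j}) ∧
          (∀ i : Fin n, τ (MvPolynomial.X (Fin.castAdd l i))
              - MvPolynomial.rename (Fin.castAdd l) (φ (MvPolynomial.X i))
            ∈ (Ideal.span (Set.range fun j : Fin l => (MvPolynomial.X (Fin.natAdd n j) :
                MvPolynomial (Fin (n + l)) k))) ^ m) ∧
          (∀ j : Fin l, τ (MvPolynomial.X (Fin.natAdd n j)) - MvPolynomial.X (Fin.natAdd n j)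
            ∈ (Ideal.span (Set.range fun j : Fin l => (MvPolynomial.X (Fin.natAdd n j) :
                MvPolynomial (Fin (n + l)) k))) ^ m) := by
  intro k _ n φ m
  obtain ⟨l₀, h⟩ := Pool.AM.main_FIN k n φ m
  refine ⟨l₀, fun l hl => ?_⟩
  obtain ⟨τ, hτ, h1, h2⟩ := h l hl
  exact ⟨τ, hτ, h1, h2⟩

end Pool.Agent.Results.MP_91aed7_ag.AllOrders
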