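import Pool.Agent.Work.MP_91aed7_gr.All

/-!
# Stable tameness reduces to gradient automorphisms of degree at most three (MP_91aed7_ag)

For every field `k` all automorphisms of all `k[x_1, ..., x_n]` are stably tame if and only if all
automorphisms of the form `x_i ↦ ∂g/∂y_i`, `y_i ↦ ∂g/∂x_i` of `k[x_1, ..., x_n, y_1, ..., y_n]`,
`g` a polynomial of degree at most four, are stably tame.
-/

set_option autoImplicit false

namespace Pool.Agent.Results.MP_91aed7_ag.GradientReduction

open MvPolynomial

/-- The tame subgroup of the problem: generated by the automorphisms of degree at most one and the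
automorphisms which add to one variable a polynomial in the others and fix the others. -/
noncomputable def Tame (k : Type) [Field k] (N : ℕ) :
    Subgroup (MvPolynomial (Fin N) k ≃ₐ[k] MvPolynomial (Fin N) k) :=
  Subgroup.closure
    ({σ | ∀ i : Fin N, (σ (X i)).totalDegree ≤ 1} ∪
     {σ | ∃ i : Fin N, ∃ f : MvPolynomial (Fin N) k, i ∉ f.vars ∧ σ (X i) = X i + f ∧
        ∀ j : Fin N, j ≠ i → σ (X j) = X j})

/-- `φ` is stably tame: for some `l > 0` the extension of `φ` which fixes `l` further variables is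
tame. -/
def StablyTame {k : Type} [Field k] {n : ℕ}
    (φ : MvPolynomial (Fin n) k ≃ₐ[k] MvPolynomial (Fin n) k) : Prop :=
  ∃ l : ℕ, 0 < l ∧ ∃ τ ∈ Tame k (n + l),
    (∀ i : Fin n, τ (X (Fin.castAdd l i)) = rename (Fin.castAdd l) (φ (X i))) ∧
    ∀ j : Fin l, τ (X (Fin.natAdd n j)) = X (Fin.natAdd n j)

theorem result :
    ∀ (k : Type) [Field k],
      (∀ (n : ℕ) (φ : MvPolynomial (Fin n) k ≃ₐ[k] MvPolynomial (Fin n) k), StablyTame φ) ↔
      ∀ (n : ℕ) (g : MvPolynomial (Fin (n + n)) k)
        (ψ : MvPolynomial (Fin (n + n)) k ≃ₐ[k] MvPolynomial (Fin (n + n)) k),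
        g.totalDegree ≤ 4 →
        (∀ i : Fin n, ψ (X (Fin.castAdd n i)) = pderiv (Fin.natAdd n i) g ∧
          ψ (X (Fin.natAdd n i)) = pderiv (Fin.castAdd n i) g) → StablyTame ψ :=
  Pool.GR.main_thm

end Pool.Agent.Results.MP_91aed7_ag.GradientReduction
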