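import Pool.Agent.Work.MP_91aed7_un.Main

/-!
# Tame automorphisms are dense along a linear subspace (MP_91aed7_ag), characteristic 0

For every field `k` of characteristic 0 and every automorphism `φ` of `k[x_1, ..., x_n]` there is
`l₀` (`l₀ = 2` if `φ` is tame) such that for all `l ≥ l₀` every automorphism `ψ` of
`k[x_1, ..., x_n, y_1, ..., y_l]` which agrees to first order along `y = 0` with the extension
`φ_l` of `φ` is a `(y_1, ..., y_l)`-adic limit of tame automorphisms of the same ring.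
-/

set_option autoImplicit false

namespace Pool.Agent.Results.MP_91aed7_ag.TameDensity

/-- The tame group: generated by the automorphisms of degree at most one and by those which add to
one variable a polynomial in the others and fix the other variables. -/
noncomputable def tameGroup (k : Type) [Field k] (N : ℕ) :
    Subgroup (MvPolynomial (Fin N) k ≃ₐ[k] MvPolynomial (Fin N) k) :=
  Subgroup.closure
    ({σ | ∀ i : Fin N, (σ (MvPolynomial.X i)).totalDegree ≤ 1} ∪
     {σ | ∃ i : Fin N, ∃ f : MvPolynomial (Fin N) k, i ∉ f.vars ∧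
        σ (MvPolynomial.X i) = MvPolynomial.X i + f ∧
        ∀ j : Fin N, j ≠ i → σ (MvPolynomial.X j) = MvPolynomial.X j})

/-- The ideal `(y_1, ..., y_l)` of `k[x_1, ..., x_n, y_1, ..., y_l]`. -/
noncomputable def yIdeal (k : Type) [Field k] (n l : ℕ) : Ideal (MvPolynomial (Fin (n + l)) k) :=
  Ideal.span (Set.range fun j : Fin l => (MvPolynomial.X (Fin.natAdd n j) :
    MvPolynomial (Fin (n + l)) k))

theorem result :
    ∀ (k : Type) [Field k] [CharZero k] (n : ℕ)
      (φ : MvPolynomial (Fin n) k ≃ₐ[k] MvPolynomial (Fin n) k),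
      ∃ l₀ : ℕ, (φ ∈ tameGroup k n → l₀ = 2) ∧ ∀ l : ℕ, l₀ ≤ l →
        ∀ ψ : MvPolynomial (Fin (n + l)) k ≃ₐ[k] MvPolynomial (Fin (n + l)) k,
          (∀ i : Fin n, ψ (MvPolynomial.X (Fin.castAdd l i))
              - MvPolynomial.rename (Fin.castAdd l) (φ (MvPolynomial.X i)) ∈ yIdeal k n l) →
          (∀ j : Fin l, ψ (MvPolynomial.X (Fin.natAdd n j)) - MvPolynomial.X (Fin.natAdd n j)
              ∈ yIdeal k n l ^ 2) →
          ∀ m : ℕ, ∃ τ ∈ tameGroup k (n + l), ∀ a : Fin (n + l),
            τ (MvPolynomial.X a) - ψ (MvPolynomial.X a) ∈ yIdeal k n l ^ m := by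
  intro k _ _ n φ
  obtain ⟨l₀, h0, h⟩ := Pool.AM.n_FC k n φ
  exact ⟨l₀, h0, fun l hl ψ h1 h2 m => h l hl ψ ⟨h1, h2⟩ m⟩

end Pool.Agent.Results.MP_91aed7_ag.TameDensity
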