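import Pool.Agent.Work.MP_91aed7_un.Main2

/-!
# Stable tameness to all orders with a uniform number of variables (MP_91aed7_ag), infinite fields

For every infinite field `k` and every automorphism `φ` of `k[x_1, ..., x_n]` there is `l₀` such
that for all `l ≥ l₀` and all `m` there is a tame automorphism of `k[x_1, ..., x_n, y_1, ..., y_l]`
which is congruent modulo `(y_1, ..., y_l) ^ m` to the extension of `φ` by the identity on the
`y_j`. The number `l₀` does not depend on `m`.
-/

set_option autoImplicit false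

namespace Pool.Agent.Results.MP_91aed7_ag.UniformOrders

theorem result :
    ∀ (k : Type) [Field k] [Infinite k] (n : ℕ)
      (φ : MvPolynomial (Fin n) k ≃ₐ[k] MvPolynomial (Fin n) k),
      ∃ l₀ : ℕ, ∀ l : ℕ, l₀ ≤ l → ∀ m : ℕ,
        ∃ τ : MvPolynomial (Fin (n + l)) k ≃ₐ[k] MvPolynomial (Fin (n + l)) k,
          τ ∈ Subgroup.closure
            ({σ : MvPolynomial (Fin (n + l)) k ≃ₐ[k] MvPolynomial (Fin (n + l)) k |
                ∀ i : Fin (n + l), (σ (MvPolynomial.X i)).totalDegree ≤ 1} ∪
             {σ : MvPolynomial (Fin (n + l)) k ≃ₐ[k] MvPolynomial (Fin (n + l)) k |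
                ∃ i : Fin (n + l), ∃ f : MvPolynomial (Fin (n + l)) k,
                  i ∉ f.vars ∧ σ (MvPolynomial.X i) = MvPolynomial.X i + f ∧
                  ∀ j : Fin (n + l), j ≠ i → σ (MvPolynomial.X j) = MvPolynomial.X j}) ∧
          (∀ i : Fin n, τ (MvPolynomial.X (Fin.castAdd l i))
              - MvPolynomial.rename (Fin.castAdd l) (φ (MvPolynomial.X i))
            ∈ (Ideal.span (Set.range fun j : Fin l => (MvPolynomial.X (Fin.natAdd n j) :
                MvPolynomial (Fin (n + l)) k))) ^ m) ∧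
          (∀ j : Fin l, τ (MvPolynomial.X (Fin.natAdd n j)) - MvPolynomial.X (Fin.natAdd n j)
            ∈ (Ideal.span (Set.range fun j : Fin l => (MvPolynomial.X (Fin.natAdd n j) :
                MvPolynomial (Fin (n + l)) k))) ^ m) := by
  intro k _ _ n φ
  obtain ⟨l₀, h⟩ := Pool.AM.n_Z13 k n φ
  refine ⟨l₀, fun l hl m => ?_⟩
  obtain ⟨τ, hτ, h1, h2⟩ := h l hl m
  exact ⟨τ, hτ, h1, h2⟩

end Pool.Agent.Results.MP_91aed7_ag.UniformOrders
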